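import Pool.Agent.W353.SP.NMain

/-!
# The Tauberian Tate conjecture over all number fields and the tensor square of the transcendental part

`X` is a smooth projective variety over a number field `K`, `V` the space of the classes of the
algebraic cycles of codimension `m` defined over the algebraic closure (`NS(X) ⊗ ℚ` for `m = 1`, the
question) and `T` the complement of `V(-m)` in `H^{2m}(X)`, the transcendental part for `m = 1`. Let `t_v` be
the trace of the Frobenius at `v` on `T`, divided by `q_v^m`; so `q_v^{2m} t_v²` is the trace on `T ⊗ T`, a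
part of `H^{4m}(X × X)`. Let `S(T)` be the average `T⁻¹ ∑_{q_v ≤ T} t_v² log q_v`, the Tauberian average of
`T ⊗ T`; the conjecture for `X × X` predicts that it tends to the rank of the endomorphisms of `T`, and this
is `1` if `T` is absolutely irreducible. It is always at most `(dim T)² + o(1)`.

* For finitely many pairwise inequivalent irreducible Artin representations `χ_k` of `K` let `e_k(T)` be the
  error of the Tauberian average for `H^{2m}(X) ⊗ χ_k`: the average up to `T` minus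
  `dim (V ⊗ χ_k)^{Gal(K̄/K)}`. Then `∑ e_k(T)² ≤ S(T) + η` for all large `T`.
* For every number field `F ⊇ K` (of any degree) let `e_F(T)` be the average for `X_F` minus the rank of the
  classes over `F`. Then `e_F(T)² ≤ [F : K] S(T) + η` for all large `T`.

No continuation of `L`-functions and no automorphy is used; it is a statement for every (large) `T`, and
`S(T)` need not converge.
-/

set_option autoImplicit false

namespace Pool.Agent.Q190.TA

open Complex Filter Topology ComplexConjugate NumberField IsDedekindDomain Polynomial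
  Pool.Agent.W401.Cheb Pool.Agent.W540.BE Pool.Agent.W353.L1 Pool.Agent.W353.AT Pool.Agent.W353.SP
open Pool.Agent.W353.NF (act fixn fixn_le)
open Pool.Agent.W353.TD (ch rank IsPart)
open Pool.Agent.W353.PV (tF Eig alp pick_spec)

/-- `T⁻¹ ∑_{v ∉ R, q_v ≤ T} t(v)² log q_v`. -/
noncomputable def secondMoment {K : Type} [Field K] [NumberField K]
    (R : Finset (HeightOneSpectrum (𝓞 K))) (t : HeightOneSpectrum (𝓞 K) → ℝ) (T : ℕ) : ℝ :=
  (T : ℝ)⁻¹ * ∑ᶠ v ∈ {v : HeightOneSpectrum (𝓞 K) | v ∉ R ∧ Ideal.absNorm v.asIdeal ≤ T},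
    t v ^ 2 * Real.log (Ideal.absNorm v.asIdeal : ℝ)

/-- At all primes `v` not in the finite set `R`, `t v` is `q_v^{-m}` times the trace of the geometric
Frobenius on `H^{2m}(X)` minus its trace on `V`: the normalized trace on the complement of `V(-m)`. -/
def IsComplementTrace {K : Type} [Field K] [NumberField K] {l : ℕ}
    (X : Set (MvPolynomial (Fin l) (𝓞 K))) (d m N : ℕ) {V : Type} [AddCommGroup V] [Module ℚ V]
    (ρ : Representation ℚ Gal(AlgebraicClosure K/K) V) (R : Finset (HeightOneSpectrum (𝓞 K)))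
    (t : HeightOneSpectrum (𝓞 K) → ℝ) : Prop :=
  ∀ v, v ∉ R → ∃ α : Fin N → ℂ, Pool.Agent.W353.EF.IsFrobenius X d (2 * m) v α ∧
    ∀ σ, IsFrobeniusElement v σ → t v = (∑ j, α j).re / (Ideal.absNorm v.asIdeal : ℝ) ^ m -
      (LinearMap.trace ℚ V (ρ σ⁻¹) : ℝ)

section gen

variable {K : Type} [Field K] [NumberField K] {E : ℕ → (HeightOneSpectrum (𝓞 K) → ℝ) → ℝ}

/-- **An inequality of Bessel type for mean values which need not converge.** -/
theorem bessel_ev (h : Mn atTop E) {T : HeightOneSpectrum (𝓞 K) → ℝ} (hT : Bd T) {κ : Type}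
    [Fintype κ] {f : κ → HeightOneSpectrum (𝓞 K) → ℝ} (hf : ∀ k, Bd (f k)) {C : ℝ} (hC : 0 < C)
    (hW : ∀ c : κ → ℝ, ∃ (w : HeightOneSpectrum (𝓞 K) → ℝ) (m : ℝ), Hs atTop E w m ∧
      m ≤ C * ∑ k, c k ^ 2 ∧ ∀ v, (∑ k, c k * f k v) ^ 2 ≤ w v) {x : κ → ℕ → ℝ}
    (hx : ∀ k, Tendsto (fun i => E i (fun v => T v * f k v) - x k i) atTop (𝓝 0)) {S : ℕ → ℝ}
    (hS : Tendsto (fun i => E i (fun v => T v * T v) - S i) atTop (𝓝 0)) {η : ℝ} (hη : 0 < η) :
    ∀ᶠ i in atTop, ∑ k, x k i ^ 2 ≤ C * S i + η := by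
  classical
  by_contra hcon
  have hfr : ∃ᶠ i in atTop, C * S i + η < ∑ k, x k i ^ 2 := by
    intro h1
    exact hcon (h1.mono fun i hi => not_lt.1 hi)
  obtain ⟨z, hz, hzp⟩ := extraction_of_frequently_atTop hfr
  have hM := h.comp hz.tendsto_atTop
  obtain ⟨φ, hφ, r, hr⟩ := diag (I := Option κ)
    (fun o n => match o with
      | some k => E (z n) (fun v => T v * f k v)
      | none => E (z n) (fun v => T v * T v)) (fun o => by
    rcases o with _ | k
    · obtain ⟨B, hB⟩ := hT.mul hT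
      exact ⟨2 * |B|, hM.bound hB⟩
    · obtain ⟨B, hB⟩ := hT.mul (hf k)
      exact ⟨2 * |B|, hM.bound hB⟩)
  have hzφ : Tendsto (fun n => z (φ n)) atTop atTop := hz.tendsto_atTop.comp hφ.tendsto_atTop
  have hM' : Mn atTop fun n => E (z (φ n)) := h.comp hzφ
  have hk : ∀ k, Hs atTop (fun n => E (z (φ n))) (fun v => T v * f k v) (r (some k)) :=
    fun k => ⟨hT.mul (hf k), hr (some k)⟩
  have h0 : Hs atTop (fun n => E (z (φ n))) (fun v => T v * T v) (r none) :=
    ⟨hT.mul hT, hr none⟩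
  -- the limits of `x` and `S`
  have hxk : ∀ k, Tendsto (fun n => x k (z (φ n))) atTop (𝓝 (r (some k))) := by
    intro k
    have h2 := (hr (some k)).sub ((hx k).comp hzφ)
    rw [sub_zero] at h2
    refine h2.congr fun n => ?_
    simp only [Function.comp_apply]
    ring
  have hSk : Tendsto (fun n => S (z (φ n))) atTop (𝓝 (r none)) := by
    have h2 := (hr none).sub (hS.comp hzφ)
    rw [sub_zero] at h2
    refine h2.congr fun n => ?_
    simp only [Function.comp_apply]
    ring
  have hlim : C * r none + η ≤ ∑ k, r (some k) ^ 2 := by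
    refine le_of_tendsto_of_tendsto' ((hSk.const_mul C).add_const η)
      (tendsto_finsetSum _ fun k _ => (hxk k).pow 2) fun n => (hzp (φ n)).le
  -- positivity
  obtain ⟨w, m, hw, hm, hle⟩ := hW (fun k => r (some k) / C)
  have hw' : Hs atTop (fun n => E (z (φ n))) w m := ⟨hw.1, hw.2.comp hzφ⟩
  have hsum : Hs atTop (fun n => E (z (φ n)))
      (fun v => ∑ k, (-2 * (r (some k) / C)) * (T v * f k v))
      (∑ k, (-2 * (r (some k) / C)) * r (some k)) :=
    hM'.hsSum Finset.univ fun k _ => hM'.hsMul (hk k) _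
  have hall := hM'.hsAdd h0 (hM'.hsAdd hsum hw')
  have hpos := Hs.le hM' hM'.hsZero hall fun v => by
    have e1 : ∑ k, (-2 * (r (some k) / C)) * (T v * f k v) =
        -2 * (T v * ∑ k, r (some k) / C * f k v) := by
      rw [Finset.mul_sum, Finset.mul_sum]
      exact Finset.sum_congr rfl fun k _ => by ring
    rw [e1]
    nlinarith [hle v, sq_nonneg (T v - ∑ k, r (some k) / C * f k v)]
  have e2 : ∑ k, (-2 * (r (some k) / C)) * r (some k) = -2 / C * ∑ k, r (some k) ^ 2 := by
    rw [Finset.mul_sum]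
    exact Finset.sum_congr rfl fun k _ => by ring
  have e3 : C * ∑ k, (r (some k) / C) ^ 2 = 1 / C * ∑ k, r (some k) ^ 2 := by
    rw [Finset.mul_sum, Finset.mul_sum]
    refine Finset.sum_congr rfl fun k _ => ?_
    field_simp
  rw [e2] at hpos
  rw [e3] at hm
  have h5 : ∑ k, r (some k) ^ 2 ≤ C * r none := by
    have h6 : 1 / C * ∑ k, r (some k) ^ 2 ≤ r none := by
      have e4 : -2 / C * ∑ k, r (some k) ^ 2 = -(2 * (1 / C * ∑ k, r (some k) ^ 2)) := by ring
      rw [e4] at hpos
      linarith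
    have h7 := mul_le_mul_of_nonneg_left h6 hC.le
    have e5 : C * (1 / C * ∑ k, r (some k) ^ 2) = ∑ k, r (some k) ^ 2 := by
      field_simp
    rwa [e5] at h7
  linarith

end gen

section chars

variable {K : Type} [Field K] [NumberField K] {E : ℕ → (HeightOneSpectrum (𝓞 K) → ℝ) → ℝ}

theorem char_W (h : Mn atTop E) {κ : Type} [Fintype κ] {n : κ → ℕ}
    (χ : ∀ k, Representation ℂ (GK K) (Fin (n k) → ℂ)) (hA : ∀ k, IsArtin (χ k))
    (hirr : ∀ k, (χ k).IsIrreducible) (hne : ∀ k k', k ≠ k' → IsEmpty ((χ k).Equiv (χ k')))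
    (σ : HeightOneSpectrum (𝓞 K) → GK K) (hσ : ∀ v, IsFrob v (σ v)) (c : κ → ℝ) :
    ∃ (w : HeightOneSpectrum (𝓞 K) → ℝ) (m : ℝ), Hs atTop E w m ∧
      m ≤ 1 * ∑ k, c k ^ 2 ∧ ∀ v, (∑ k, c k * RR (χ k) 0 σ v) ^ 2 ≤ w v := by
  classical
  obtain ⟨U, hUn, hU, hχ⟩ := exists_common χ hA
  have hfin : Finite (GK K ⧸ U) := Subgroup.quotient_finite_of_isOpen U hU
  set g : HeightOneSpectrum (𝓞 K) → ℂ := fun v => ∑ k, (c k : ℂ) *
    (χ k).character (σ v)⁻¹ with hg
  have hRR : ∀ k v, RR (χ k) 0 σ v = ((χ k).character (σ v)⁻¹).re := by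
    intro k v
    unfold RR zz
    rw [Complex.ofReal_zero, zero_mul, neg_zero, Complex.cpow_zero, mul_one]
  have hWg : ∀ v, ∑ k, c k * RR (χ k) 0 σ v = (g v).re := by
    intro v
    rw [hg]
    simp only
    rw [Complex.re_sum]
    refine Finset.sum_congr rfl fun k _ => ?_
    rw [Complex.re_ofReal_mul, hRR]
  have hgg : ∀ v, ‖g v‖ ^ 2 = ∑ k, ∑ k', c k * c k' *
      ((χ k).character (σ v)⁻¹ * conj ((χ k').character (σ v)⁻¹)).re := by
    intro v
    have h1 : (‖g v‖ ^ 2 : ℝ) = (g v * conj (g v)).re := by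
      rw [Complex.mul_conj, Complex.normSq_eq_norm_sq, Complex.ofReal_re]
    rw [h1, hg]
    simp only
    rw [map_sum, Finset.sum_mul_sum, Complex.re_sum]
    refine Finset.sum_congr rfl fun k _ => ?_
    rw [Complex.re_sum]
    refine Finset.sum_congr rfl fun k' _ => ?_
    have h2 : (c k : ℂ) * (χ k).character (σ v)⁻¹ *
        conj ((c k' : ℂ) * (χ k').character (σ v)⁻¹) =
        ((c k * c k' : ℝ) : ℂ) *
          ((χ k).character (σ v)⁻¹ * conj ((χ k').character (σ v)⁻¹)) := by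
      rw [map_mul, Complex.conj_ofReal]
      push_cast
      ring
    rw [h2, Complex.re_ofReal_mul]
  refine ⟨fun v => ‖g v‖ ^ 2, ∑ k, c k ^ 2, ?_, (one_mul _).ge, fun v => ?_⟩
  · have h1 := h.hsSum Finset.univ fun k _ => h.hsSum Finset.univ fun k' _ =>
      h.hsMul (h.ortho U hU χ hχ σ hσ (hirr k) (hirr k')) (c k * c k')
    refine h1.congr (fun v => (hgg v).symm) ?_
    refine Finset.sum_congr rfl fun k hk => ?_
    rw [Finset.sum_eq_single k]
    · rw [if_pos ⟨Representation.Equiv.refl _⟩]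
      ring
    · intro k' hk' hkk
      rw [if_neg (not_nonempty_iff.2 (hne k k' (Ne.symm hkk))), mul_zero]
    · intro hk'
      exact absurd hk hk'
  · rw [hWg]
    have h1 : |(g v).re| ≤ ‖g v‖ := Complex.abs_re_le_norm _
    calc (g v).re ^ 2 = |(g v).re| ^ 2 := (sq_abs _).symm
      _ ≤ ‖g v‖ ^ 2 := by gcongr

/-- the mean of the number of fixed embeddings -/
theorem fix_mean (h : Mn atTop E) (F : IntermediateField K (AlgebraicClosure K)) [NumberField F]
    (σ : HeightOneSpectrum (𝓞 K) → GK K) (hσ : ∀ v, IsFrob v (σ v)) :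
    Hs atTop E (fun v => (fixn K F (σ v) : ℝ)) 1 := by
  have h1 := h.fixMean (1 : Representation ℚ (GK K) ℚ) ⟨⊤, isOpen_univ, fun u _ => rfl⟩ F.val σ hσ
  refine h1.congr (fun v => ?_) ?_
  · have : ch (1 : Representation ℚ (GK K) ℚ) (σ v)⁻¹ = 1 := by
      unfold ch
      have e : (1 : Representation ℚ (GK K) ℚ) (σ v)⁻¹ = 1 := rfl
      rw [e, LinearMap.trace_one]
      simp
    rw [this, one_mul]
  · have : Pool.Agent.W353.TD.inv (1 : Representation ℚ (GK K) ℚ) F.val.fieldRange.fixingSubgroup = ⊤ := by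
      rw [Pool.Agent.W353.TD.inv_eq, eq_top_iff]
      intro x _ g
      rfl
    rw [this]
    simp

theorem fixn_le_deg (F : IntermediateField K (AlgebraicClosure K)) [NumberField F] (g : GK K) :
    fixn K F g ≤ Module.finrank K F := by
  unfold fixn
  have h1 : Nat.card (F →ₐ[K] AlgebraicClosure K) = Module.finrank K F := by
    rw [Nat.card_eq_fintype_card]
    exact AlgHom.card K F (AlgebraicClosure K)
  rw [← h1]
  exact Nat.card_le_card_of_injective (fun x => x.1) Subtype.val_injective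

theorem fix_W (h : Mn atTop E) (F : IntermediateField K (AlgebraicClosure K)) [NumberField F]
    (σ : HeightOneSpectrum (𝓞 K) → GK K) (hσ : ∀ v, IsFrob v (σ v)) (c : Unit → ℝ) :
    ∃ (w : HeightOneSpectrum (𝓞 K) → ℝ) (m : ℝ), Hs atTop E w m ∧
      m ≤ (Module.finrank K F : ℝ) * ∑ k, c k ^ 2 ∧
      ∀ v, (∑ k, c k * (fixn K F (σ v) : ℝ)) ^ 2 ≤ w v := by
  refine ⟨fun v => (c () ^ 2 * Module.finrank K F) * fixn K F (σ v), _,
    h.hsMul (fix_mean h F σ hσ) _, le_of_eq ?_, fun v => ?_⟩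
  · rw [Fintype.sum_unique]
    change c () ^ 2 * _ * 1 = _ * c () ^ 2
    ring
  · rw [Fintype.sum_unique]
    change (c () * (fixn K F (σ v) : ℝ)) ^ 2 ≤ _
    have h1 : (fixn K F (σ v) : ℝ) ≤ Module.finrank K F := by exact_mod_cast fixn_le_deg F (σ v)
    have h2 : (0 : ℝ) ≤ fixn K F (σ v) := Nat.cast_nonneg _
    have h3 : (fixn K F (σ v) : ℝ) * fixn K F (σ v) ≤ Module.finrank K F * fixn K F (σ v) :=
      mul_le_mul_of_nonneg_right h1 h2
    nlinarith [mul_le_mul_of_nonneg_left h3 (sq_nonneg (c ()))]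

theorem bd_of_cofinite {f : HeightOneSpectrum (𝓞 K) → ℝ} {B : ℝ}
    (h : ∀ᶠ v in cofinite, |f v| ≤ B) : Bd f := by
  classical
  rw [Filter.eventually_cofinite] at h
  refine ⟨|B| + ∑ v ∈ h.toFinset, |f v|, fun v => ?_⟩
  have hs : 0 ≤ ∑ v ∈ h.toFinset, |f v| := Finset.sum_nonneg fun _ _ => abs_nonneg _
  by_cases hv : |f v| ≤ B
  · exact (hv.trans (le_abs_self B)).trans (le_add_of_nonneg_right hs)
  · have h2 := Finset.single_le_sum (f := fun v => |f v|) (fun _ _ => abs_nonneg _)
      (h.mem_toFinset.2 hv)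
    have h3 := abs_nonneg B
    linarith

end chars

section main

variable {K : Type} [Field K] [NumberField K] {l : ℕ} {X : Set (MvPolynomial (Fin l) (𝓞 K))}
  {d m N : ℕ} {V : Type} [AddCommGroup V] [Module ℚ V] [FiniteDimensional ℚ V]
  {ρ : Representation ℚ (GK K) V}

theorem second_eq (R : Finset (HeightOneSpectrum (𝓞 K))) (t : HeightOneSpectrum (𝓞 K) → ℝ)
    (T : ℕ) : secondMoment R t T = Pool.Agent.H126V.Taub.LA R T fun v => t v * t v := by
  have h1 := average_eq (m := 0) R (fun v => ((t v ^ 2 : ℝ) : ℂ)) T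
  have h2 : average 0 R (fun v => ((t v ^ 2 : ℝ) : ℂ)) T = secondMoment R t T := by
    unfold average secondMoment
    simp only [Complex.ofReal_re, pow_zero, div_one]
  rw [← h2, h1]
  congr 1
  funext v
  rw [Complex.ofReal_re, pow_zero, div_one, sq]

theorem main (hmd : m ≤ d) (hpart : IsPart X d m N ρ) (R : Finset (HeightOneSpectrum (𝓞 K)))
    (t : HeightOneSpectrum (𝓞 K) → ℝ) (ht : IsComplementTrace X d m N ρ R t) (η : ℝ)
    (hη : 0 < η) :
    (∀ (κ : Type) [Fintype κ] (n : κ → ℕ)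
      (χ : ∀ k, Representation ℂ Gal(AlgebraicClosure K/K) (Fin (n k) → ℂ)),
      (∀ k, IsArtin (χ k)) → (∀ k, (χ k).IsIrreducible) →
      (∀ k k', k ≠ k' → IsEmpty ((χ k).Equiv (χ k'))) →
      ∀ (R' : κ → Finset (HeightOneSpectrum (𝓞 K))) (b : κ → HeightOneSpectrum (𝓞 K) → ℂ),
      (∀ k, IsTwistedTrace X d (2 * m) N (χ k) (R' k) (b k)) →
      ∀ᶠ T : ℕ in atTop, ∑ k, (average m (R' k) (b k) T - twistRank ρ (χ k)) ^ 2 ≤
        secondMoment R t T + η) ∧
    ∀ (F : IntermediateField K (AlgebraicClosure K)) [NumberField F]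
      (R' : Finset (HeightOneSpectrum (𝓞 F))) (b : HeightOneSpectrum (𝓞 F) → ℂ),
      IsTrace X d (2 * m) N R' b →
      ∀ᶠ T : ℕ in atTop, (average m R' b T - rank ρ F) ^ 2 ≤
        Module.finrank K F * secondMoment R t T + η := by
  classical
  have hi : 2 * m ≤ 2 * d := by omega
  choose σ hσ using exists_isFrob (F := K)
  obtain ⟨hρ, hV⟩ := hpart
  have hgood : ∀ᶠ v in cofinite, |tF X d (2 * m) N K v - ch ρ (σ v)⁻¹| ≤
      ((N - Module.finrank ℚ V : ℕ) : ℝ) := by
    refine hV.mono fun v hv => ?_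
    obtain ⟨α, h1, h2⟩ := hv (σ v) (hσ v)
    exact Pool.Agent.W353.TD.tF_sub_le (ρ := ρ) hi (σ := σ v) h1 h2
  set T : HeightOneSpectrum (𝓞 K) → ℝ := fun v => tF X d (2 * m) N K v - ch ρ (σ v)⁻¹ with hTd
  have hT : Bd T := bd_of_cofinite hgood
  have hTF : Bd fun v => tF X d (2 * m) N K v := ⟨N, fun v => abs_tr_le _ _ _⟩
  have hEN : ∀ (g : HeightOneSpectrum (𝓞 K) → ℝ) (i : ℕ), EN K i (fun v => T v * g v) =
      EN K i (fun v => tF X d (2 * m) N K v * g v) - EN K i (fun v => ch ρ (σ v)⁻¹ * g v) := by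
    intro g i
    unfold EN
    rw [← sub_div, ← Finset.sum_sub_distrib]
    congr 1
    refine Finset.sum_congr rfl fun v _ => ?_
    rw [hTd]
    ring
  -- the second moment
  have hS : Tendsto (fun i => EN K i (fun v => T v * T v) - secondMoment R t i) atTop (𝓝 0) := by
    have h1 := LA_EN R (φ := fun v => t v * t v) (ψ := fun v => T v * T v) (hT.mul hT)
      (fun v hv => by
        obtain ⟨α, hα, hσv⟩ := ht v hv
        have hα' : Eig X d (2 * m) v α := hα
        have h2 := hσv (σ v) (hσ v)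
        have hq : (1 : ℝ) < (Ideal.absNorm v.asIdeal : ℝ) := Pool.Agent.W353.PV.one_lt_norm v
        have hq0 : (0 : ℝ) < (Ideal.absNorm v.asIdeal : ℝ) ^ m := by positivity
        rw [trace_tF hi hα', Complex.ofReal_re, mul_div_cancel_left₀ _ hq0.ne'] at h2
        have h3 : t v = T v := h2
        rw [h3])
    have h2 := h1.neg
    rw [neg_zero] at h2
    refine h2.congr fun i => ?_
    rw [second_eq]
    ring
  refine ⟨fun κ _ n χ hA hirr hne R' b hb => ?_, fun F _ R' b hb => ?_⟩
  · have hbdR : ∀ k, Bd fun v => RR (χ k) 0 σ v := fun k => bd_RR (x := ⟨n k, χ k⟩) (hA k) σ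
    have hx : ∀ k, Tendsto (fun i => EN K i (fun v => T v * RR (χ k) 0 σ v) -
        (average m (R' k) (b k) i - twistRank ρ (χ k))) atTop (𝓝 0) := by
      intro k
      have hφ1 : ∀ v, v ∉ R' k → (b k v).re / (Ideal.absNorm v.asIdeal : ℝ) ^ m =
          tF X d (2 * m) N K v * RR (χ k) 0 σ v := by
        intro v hv
        obtain ⟨α, hα, hbv⟩ := hb k v hv
        have hα' : Eig X d (2 * m) v α := hα
        have hq : (1 : ℝ) < (Ideal.absNorm v.asIdeal : ℝ) := Pool.Agent.W353.PV.one_lt_norm v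
        have hq0 : (0 : ℝ) < (Ideal.absNorm v.asIdeal : ℝ) ^ m := by positivity
        rw [hbv (σ v) (hσ v), trace_tF hi hα', Complex.re_ofReal_mul, mul_assoc,
          mul_div_cancel_left₀ _ hq0.ne']
        unfold RR zz
        rw [Complex.ofReal_zero, zero_mul, neg_zero, Complex.cpow_zero, mul_one]
      have h6 := LA_EN (R' k) (φ := fun v => (b k v).re / (Ideal.absNorm v.asIdeal : ℝ) ^ m)
        (ψ := fun v => tF X d (2 * m) N K v * RR (χ k) 0 σ v)
        (Bd.mul (f := fun v => tF X d (2 * m) N K v) hTF (hbdR k)) hφ1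
      have h7 := ((mnN K).twMean ρ hρ ⟨n k, χ k⟩ (hA k) σ hσ).2
      have h8 := (h6.add (h7.sub_const (twistRank ρ (χ k) : ℝ))).neg
      simp only [sub_self, add_zero, neg_zero] at h8
      refine h8.congr fun i => ?_
      rw [hEN, average_eq]
      ring
    have h1 := bessel_ev (mnN K) hT hbdR one_pos (char_W (mnN K) χ hA hirr hne σ hσ) hx hS hη
    filter_upwards [h1] with i hi
    rwa [one_mul] at hi
  · have hpos : (0 : ℝ) < Module.finrank K F := by
      have : 0 < Module.finrank K F := Module.finrank_pos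
      exact_mod_cast this
    have hx : ∀ _k : Unit, Tendsto (fun i => EN K i (fun v => T v * (fixn K F (σ v) : ℝ)) -
        (average m R' b i - rank ρ F)) atTop (𝓝 0) := by
      intro _
      have hφ1 : ∀ v, v ∉ R' → (b v).re / (Ideal.absNorm v.asIdeal : ℝ) ^ m =
          tF X d (2 * m) N F v := by
        intro v hv
        obtain ⟨α, hα, hbv⟩ := hb v hv
        have hα' : Eig X d (2 * m) v α := hα
        have hq : (1 : ℝ) < (Ideal.absNorm v.asIdeal : ℝ) := Pool.Agent.W353.PV.one_lt_norm v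
        have hq0 : (0 : ℝ) < (Ideal.absNorm v.asIdeal : ℝ) ^ m := by positivity
        rw [hbv, trace_tF hi hα', Complex.ofReal_re, mul_div_cancel_left₀ _ hq0.ne']
      have h6 := LA_EN R' (φ := fun v => (b v).re / (Ideal.absNorm v.asIdeal : ℝ) ^ m)
        (ψ := fun v => tF X d (2 * m) N F v) ⟨N, fun v => abs_tr_le _ _ _⟩ hφ1
      have h7 := EN_F (K := K) (F := F) (X := X) (d := d) (i := 2 * m) (N := N) σ hσ
      have h9 := ((mnN K).fixMean ρ hρ F.val σ hσ).2
      have hr : rank ρ F = Module.finrank ℚ (Pool.Agent.W353.TD.inv ρ F.val.fieldRange.fixingSubgroup) := by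
        rw [Pool.Agent.W353.TD.inv_eq, IntermediateField.fieldRange_val]
        rfl
      have h8 := ((h6.add h7).add (h9.sub_const (rank ρ F : ℝ))).neg
      rw [hr] at h8
      simp only [sub_self, add_zero, neg_zero] at h8
      refine h8.congr fun i => ?_
      rw [hEN, average_eq, hr]
      ring
    have h1 := bessel_ev (mnN K) (κ := Unit) (f := fun _ v => (fixn K F (σ v) : ℝ)) hT
      (fun _ => bd_fixn σ) hpos (fix_W (mnN K) F σ hσ)
      (x := fun _ i => average m R' b i - rank ρ F) hx hS hη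
    filter_upwards [h1] with i hi
    rwa [Fintype.sum_unique] at hi

end main

/-- **The errors of the Tauberian averages and the tensor square of the transcendental part.**  Let `X` be a
projective variety of dimension `d` over a number field `K`, `0 ≤ m ≤ d`, `N` the `2m`-th Betti number, `V`
a part of `H^{2m}(X)(m)`, for instance `NS(X) ⊗ ℚ` for `m = 1`, and `t_v` the normalized traces on the
complement, `v ∉ R`.  For all `η > 0`:
* for finitely many pairwise inequivalent irreducible Artin representations `χ_k` of `K` and all large `T`,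
  the sum of the squares of (Tauberian average up to `T` of the traces on `H^{2m}(X) ⊗ χ_k` minus
  `dim (V ⊗ χ_k)^{Gal(K̄/K)}`) is at most `T⁻¹ ∑_{v ∉ R, q_v ≤ T} t_v² log q_v + η`;
* for every number field `F ⊇ K` and all large `T`, the square of (Tauberian average up to `T` of the traces
  on `H^{2m}(X_F)` minus `dim V^{Gal(K̄/F)}`) is at most
  `[F : K] T⁻¹ ∑_{v ∉ R, q_v ≤ T} t_v² log q_v + η`. -/
theorem result (K : Type) [Field K] [NumberField K] (l d m N : ℕ)
    (X : Set (MvPolynomial (Fin l) (𝓞 K))) (V : Type) [AddCommGroup V] [Module ℚ V]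
    [FiniteDimensional ℚ V] (ρ : Representation ℚ Gal(AlgebraicClosure K/K) V) (hm : m ≤ d)
    (hV : IsPart X d m N ρ) (R : Finset (HeightOneSpectrum (𝓞 K)))
    (t : HeightOneSpectrum (𝓞 K) → ℝ) (ht : IsComplementTrace X d m N ρ R t) (η : ℝ)
    (hη : 0 < η) :
    (∀ (κ : Type) [Fintype κ] (n : κ → ℕ)
      (χ : ∀ k, Representation ℂ Gal(AlgebraicClosure K/K) (Fin (n k) → ℂ)),
      (∀ k, IsArtin (χ k)) → (∀ k, (χ k).IsIrreducible) →
      (∀ k k', k ≠ k' → IsEmpty ((χ k).Equiv (χ k'))) →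
      ∀ (R' : κ → Finset (HeightOneSpectrum (𝓞 K))) (b : κ → HeightOneSpectrum (𝓞 K) → ℂ),
      (∀ k, IsTwistedTrace X d (2 * m) N (χ k) (R' k) (b k)) →
      ∀ᶠ T : ℕ in atTop, ∑ k, (average m (R' k) (b k) T - twistRank ρ (χ k)) ^ 2 ≤
        secondMoment R t T + η) ∧
    ∀ (F : IntermediateField K (AlgebraicClosure K)) [NumberField F]
      (R' : Finset (HeightOneSpectrum (𝓞 F))) (b : HeightOneSpectrum (𝓞 F) → ℂ),
      IsTrace X d (2 * m) N R' b →
      ∀ᶠ T : ℕ in atTop, (average m R' b T - rank ρ F) ^ 2 ≤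
        Module.finrank K F * secondMoment R t T + η :=
  main hm hV R t ht η hη


end Pool.Agent.Q190.TA
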